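import Pool.Agent.R612.OB.Main

/-!
# MP_56664b_an, Q1: the heat equation on the unit square is observable from a line of slope one

The line `y = x + √2 - 1` is an observation set at every positive time.  The paper proof is due
to helper213: sampling the solution at `2L+1` times and `4L+1` points of the line and applying
finite differences with the nodes `exp (-π²(K²+J²)/(2N²))` and `exp (iπK/(8N))` isolates the modes
with given sum and difference of the frequencies, and a determinant controlled by
`|sin (π m (√2-1))| ≥ c/m` separates the last two; then the usual iteration over dyadic times.
-/

open Pool.Agent.R213.OB Pool.Agent.R612.OB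

/-- There is an irreducible polynomial whose zero set is the line `y = x + √2 - 1`, which is not
parallel to a coordinate axis, and the heat equation on the unit square is observable from the
part of this line inside the square at every time `T > 0`. -/
theorem Pool.Agent.Results.MP_56664b_an.ObservableLine.result :
    ∃ P : MvPolynomial (Fin 2) ℝ, Irreducible P ∧
      curve P = {p | p.2 = p.1 + (Real.sqrt 2 - 1)} ∧
      (∀ c : ℝ, curve P ≠ {p | p.1 = c}) ∧ (∀ c : ℝ, curve P ≠ {p | p.2 = c}) ∧
      ∀ T : ℝ, 0 < T → Observable (curve P ∩ Om) T :=
  ⟨PP, PP_irred, PP_curve, PP_not_vert, PP_not_horiz, PP_obs⟩
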